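import Pool.Agent.H593R3.PPM.Defs
import Pool.Agent.H860R3.Lamp.Cluster

/-!
# Treewidth of permutations, and `NP`-hardness of pattern-restricted pattern matching
-/

namespace Pool.Agent.W956.PPM

open Pool.Agent.NPC Pool.Agent.H593R3.PPM

/-- The graph `G_π` on the positions of the permutation `π`: positions which are adjacent in place
or adjacent in value are joined. -/
def permGraph (π : List ℕ) : SimpleGraph (Fin π.length) :=
  SimpleGraph.fromRel (fun i j => (i : ℕ) + 1 = (j : ℕ) ∨ π[i] + 1 = π[j])

/-- The treewidth of the graphs `G_π`, `π ∈ C`, is unbounded: for every `k` there is a member `π`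
of `C` such that `G_π` has no tree decomposition of width at most `k`. -/
def UnboundedTW (C : Set (List ℕ)) : Prop :=
  ∀ k : ℕ, ∃ π ∈ C, IsEmpty (H860R3.Lamp.TreeDecomposition (permGraph π) k)

/-- `NP`-hardness of `C`-Pattern PPM as a problem all of whose instances `(π, τ)` consist of a
member `π` of `C` and a permutation `τ`: every language in `NP` has a polynomial-time reduction
all of whose values are such instances. -/
def HardOnInstances (C : Set (List ℕ)) : Prop :=
  ∀ L : Set (List Bool), InNP L → ∃ f : List Bool → List ℕ × List ℕ,
    PolyTime (fun x => bits (f x)) ∧ (∀ x, (f x).1 ∈ C ∧ IsPerm (f x).2) ∧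
      ∀ x, x ∈ L ↔ Contains (f x).2 (f x).1

end Pool.Agent.W956.PPM
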