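import Pool.Agent.H593R3.PPM.Main
import Pool.Agent.H860R3.Lamp.Bramble

/-!
# Grid-width is bounded in terms of the treewidth
-/

namespace Pool.Agent.W956.PPM

open Finset SimpleGraph
open Pool.Agent.H593R3.PPM H860R3.Lamp

section general

variable {V : Type} [Fintype V] [DecidableEq V] {G : SimpleGraph V}

open Classical in
/-- the vertices outside `A` with a neighbour in `A` -/
noncomputable def nb (G : SimpleGraph V) (A : Finset V) : Finset V :=
  univ.filter (fun v => v ∉ A ∧ ∃ u ∈ A, G.Adj u v)

theorem mem_nb {A : Finset V} {v : V} : v ∈ nb G A ↔ v ∉ A ∧ ∃ u ∈ A, G.Adj u v := by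
  simp [nb]

theorem cvx_of_nb {n : ℕ} {Y : V → ℕ} (hinj : Function.Injective Y)
    (him : (univ : Finset V).image Y = range n) (hY : ∀ u v, Y u + 1 = Y v → G.Adj u v)
    {A : Finset V} {g : ℕ} (h : (nb G A).card + 1 ≤ g) : Cvx Y univ A g := by
  classical
  refine (intv_le_iff (n := n) hinj.injOn him (subset_univ _)).1 (le_trans ?_ h)
  have h1 : (A.image Y).filter (fun a => a + 1 ∉ A.image Y) ⊆
      insert (n - 1) ((nb G A).image (fun v => Y v - 1)) := by
    intro b hb
    rw [mem_filter, mem_image] at hb
    obtain ⟨⟨u, hu, rfl⟩, hb2⟩ := hb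
    rw [mem_insert, mem_image]
    by_cases hn : Y u + 1 = n
    · left; omega
    · right
      have h2 : Y u < n := by
        have : Y u ∈ (univ : Finset V).image Y := mem_image_of_mem _ (mem_univ _)
        rw [him] at this
        exact mem_range.1 this
      have h3 : Y u + 1 ∈ (univ : Finset V).image Y := by
        rw [him, mem_range]; omega
      obtain ⟨v, -, hv⟩ := mem_image.1 h3
      refine ⟨v, mem_nb.2 ⟨fun hvA => hb2 ?_, u, hu, hY u v hv.symm⟩, by omega⟩
      rw [← hv]
      exact mem_image_of_mem _ hvA
  rw [intv]
  refine (card_le_card h1).trans ((card_insert_le _ _).trans ?_)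
  have := card_image_le (s := nb G A) (f := fun v => Y v - 1)
  omega

omit [Fintype V] [DecidableEq V] in
/-- sets all of whose members are joined to `b` inside the set are connected -/
theorem connIn_of_center {U : Set V} {b : V}
    (h : ∀ x ∈ U, ∃ Q : G.Walk b x, ∀ c ∈ Q.support, c ∈ U) : ConnIn G U := by
  intro x y hx hy
  obtain ⟨P, hP⟩ := h x hx
  obtain ⟨Q, hQ⟩ := h y hy
  refine ⟨P.reverse.append Q, ?_⟩
  intro c hc
  rw [Walk.mem_support_append_iff] at hc
  rcases hc with hc | hc
  · rw [Walk.support_reverse, List.mem_reverse] at hc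
    exact hP c hc
  · exact hQ c hc

/-- A bag which meets all connected sets containing more than half of `W`. -/
theorem exists_bag {k : ℕ} (D : TreeDecomposition G k) (W : Finset V) (v : V) :
    ∃ X : Finset V, v ∈ X ∧ X.card ≤ k + 2 ∧
      ∀ U : Finset V, ConnIn G (U : Set V) → Disjoint U X → 2 * (U ∩ W).card ≤ W.card := by
  classical
  obtain ⟨s, hs⟩ : ∃ s : Finset (Finset V), ∀ U, U ∈ s ↔ ConnIn G (U : Set V) ∧
      W.card < 2 * (U ∩ W).card :=
    ⟨univ.filter (fun U => ConnIn G (U : Set V) ∧ W.card < 2 * (U ∩ W).card), by simp⟩
  obtain ⟨t, ht⟩ : ∃ t, ∀ U ∈ s, ∃ u ∈ (U : Set V), u ∈ D.bag t := by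
    rcases s.eq_empty_or_nonempty with h0 | hne
    · obtain ⟨t, -⟩ := D.mem_bag v
      exact ⟨t, fun U hU => by rw [h0] at hU; simp at hU⟩
    · refine exists_bag_hitting D s hne (fun U => (U : Set V)) (fun U hU => ((hs U).1 hU).1) ?_
      intro U hU U' hU'
      have h1 := ((hs U).1 hU).2
      have h2 := ((hs U').1 hU').2
      have h3 : ((U ∩ W) ∩ (U' ∩ W)).Nonempty := by
        rw [Finset.nonempty_iff_ne_empty]
        intro h4
        have h5 := card_union_of_disjoint (disjoint_iff_inter_eq_empty.2 h4)
        have h6 : ((U ∩ W) ∪ (U' ∩ W)).card ≤ W.card :=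
          card_le_card (union_subset inter_subset_right inter_subset_right)
        omega
      obtain ⟨w, hw⟩ := h3
      obtain ⟨t, ht⟩ := D.mem_bag w
      simp only [mem_inter] at hw
      exact ⟨t, ⟨w, by simpa using hw.1.1, ht⟩, ⟨w, by simpa using hw.2.1, ht⟩⟩
  refine ⟨insert v (D.finite t).toFinset, mem_insert_self _ _, ?_, ?_⟩
  · refine (card_insert_le _ _).trans ?_
    have := D.card_le t
    rw [Set.ncard_eq_toFinset_card _ (D.finite t)] at this
    omega
  · intro U hU hd
    by_contra hcon
    obtain ⟨u, hu, hu'⟩ := ht U ((hs U).2 ⟨hU, by omega⟩)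
    exact Finset.disjoint_left.1 hd (mem_coe.1 hu)
      (mem_insert_of_mem ((Set.Finite.mem_toFinset _).2 hu'))

/-- **A tree decomposition of width `k` yields a grid tree of width `3 k + 7`.** -/
theorem bl_of_tree {k n : ℕ} (D : TreeDecomposition G k) {X Y : V → ℕ}
    (hXi : Function.Injective X) (hXr : (univ : Finset V).image X = range n)
    (hX : ∀ u v, X u + 1 = X v → G.Adj u v)
    (hYi : Function.Injective Y) (hYr : (univ : Finset V).image Y = range n)
    (hY : ∀ u v, Y u + 1 = Y v → G.Adj u v) : Bl X Y univ (3 * (k + 2) + 1) univ := by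
  classical
  have join : ∀ A B : Finset V, Bl X Y univ (3 * (k + 2) + 1) A →
      Bl X Y univ (3 * (k + 2) + 1) B → Disjoint A B → (nb G (A ∪ B)).card ≤ 3 * (k + 2) →
      Bl X Y univ (3 * (k + 2) + 1) (A ∪ B) := fun A B hA hB hd hc =>
    hA.join hB hd (cvx_of_nb hXi hXr hX (by omega)) (cvx_of_nb hYi hYr hY (by omega))
  have main : ∀ m (A : Finset V), A.card = m → (nb G A).card ≤ 2 * (k + 2) →
      Bl X Y univ (3 * (k + 2) + 1) A := by
    intro m
    induction m using Nat.strong_induction_on with
    | _ m ih =>
      intro A hAm hA
      rcases A.eq_empty_or_nonempty with h0 | ⟨v, hv⟩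
      · exact Or.inl h0
      obtain ⟨Z, hvZ, hZ, hbal⟩ := exists_bag D (nb G A) v
      -- unions of components
      have inner : ∀ l (B : Finset V), B.card = l → B ⊆ A \ Z →
          (∀ u ∈ B, ∀ w ∈ A \ Z, G.Adj u w → w ∈ B) → Bl X Y univ (3 * (k + 2) + 1) B := by
        intro l
        induction l using Nat.strong_induction_on with
        | _ l ihl =>
          intro B hBl hBA hcl
          rcases B.eq_empty_or_nonempty with h0 | ⟨b, hb⟩
          · exact Or.inl h0
          obtain ⟨C, hC⟩ : ∃ C : Finset V, ∀ c, c ∈ C ↔
              ∃ Q : G.Walk b c, ∀ z ∈ Q.support, z ∈ B :=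
            ⟨univ.filter (fun c => ∃ Q : G.Walk b c, ∀ z ∈ Q.support, z ∈ B), by simp⟩
          have hbC : b ∈ C := (hC b).2 ⟨Walk.nil, by simpa using hb⟩
          have hCB : C ⊆ B := fun c hc => by
            obtain ⟨Q, hQ⟩ := (hC c).1 hc
            exact hQ c Q.end_mem_support
          have hstep : ∀ u ∈ C, ∀ w ∈ B, G.Adj u w → w ∈ C := by
            intro u hu w hw huw
            obtain ⟨Q, hQ⟩ := (hC u).1 hu
            refine (hC w).2 ⟨Q.concat huw, ?_⟩
            intro z hz
            rw [Walk.support_concat, List.mem_append,
              List.mem_singleton] at hz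
            rcases hz with hz | rfl
            · exact hQ z hz
            · exact hw
          have hCA : C ⊆ A := fun c hc => (mem_sdiff.1 (hBA (hCB hc))).1
          have hCZ : Disjoint C Z := by
            rw [Finset.disjoint_left]
            intro c hc
            exact (mem_sdiff.1 (hBA (hCB hc))).2
          have hnbC : ∀ w ∈ nb G C, w ∈ Z ∨ w ∈ nb G A := by
            intro w hw
            rw [mem_nb] at hw
            obtain ⟨hwC, u, hu, huw⟩ := hw
            by_cases hwA : w ∈ A
            · left
              by_contra hwZ
              have h1 := hcl u (hCB hu) w (mem_sdiff.2 ⟨hwA, hwZ⟩) huw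
              exact hwC (hstep u hu w h1 huw)
            · right
              exact mem_nb.2 ⟨hwA, u, hCA hu, huw⟩
          -- connectedness
          have hwalkC : ∀ x ∈ C, ∃ Q : G.Walk b x, ∀ c ∈ Q.support, c ∈ C := by
            intro x hx
            obtain ⟨Q, hQ⟩ := (hC x).1 hx
            refine ⟨Q, fun c hc => (hC c).2 ⟨Q.takeUntil c hc, fun z hz => hQ z ?_⟩⟩
            exact Q.support_takeUntil_subset_support hc hz
          have hconn : ConnIn G ((C ∪ (nb G C \ Z) : Finset V) : Set V) := by
            refine connIn_of_center (b := b) ?_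
            intro x hx
            rw [mem_coe, mem_union] at hx
            rcases hx with hx | hx
            · obtain ⟨Q, hQ⟩ := hwalkC x hx
              exact ⟨Q, fun c hc => by
                rw [mem_coe, mem_union]; exact Or.inl (hQ c hc)⟩
            · obtain ⟨-, u, hu, hux⟩ := mem_nb.1 (mem_sdiff.1 hx).1
              obtain ⟨Q, hQ⟩ := hwalkC u hu
              refine ⟨Q.concat hux, ?_⟩
              intro z hz
              rw [Walk.support_concat, List.mem_append,
                List.mem_singleton] at hz
              rw [mem_coe, mem_union]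
              rcases hz with hz | rfl
              · exact Or.inl (hQ z hz)
              · exact Or.inr hx
          have hdis : Disjoint (C ∪ (nb G C \ Z)) Z := by
            rw [disjoint_union_left]
            exact ⟨hCZ, sdiff_disjoint⟩
          have h2 := hbal _ hconn hdis
          have h3 : nb G C \ Z ⊆ (C ∪ (nb G C \ Z)) ∩ nb G A := by
            intro w hw
            have h4 := mem_sdiff.1 hw
            rw [mem_inter, mem_union]
            exact ⟨Or.inr hw, (hnbC w h4.1).resolve_left h4.2⟩
          have h4 := card_le_card h3
          have h5 : nb G C ⊆ Z ∪ (nb G C \ Z) := by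
            intro w hw
            rw [mem_union, mem_sdiff]
            by_cases hwZ : w ∈ Z
            · exact Or.inl hwZ
            · exact Or.inr ⟨hw, hwZ⟩
          have h6 := (card_le_card h5).trans (card_union_le _ _)
          have hC2 : (nb G C).card ≤ 2 * (k + 2) := by omega
          have hlt : C.card < m := by
            rw [← hAm]
            refine card_lt_card ((ssubset_iff_of_subset hCA).2 ⟨v, hv, fun hvC => ?_⟩)
            exact Finset.disjoint_left.1 hCZ hvC hvZ
          have blC := ih _ hlt C rfl hC2
          have blR := ihl (B \ C).card (by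
            rw [← hBl]
            refine card_lt_card ((ssubset_iff_of_subset sdiff_subset).2 ⟨b, hb, fun h => ?_⟩)
            exact (mem_sdiff.1 h).2 hbC) (B \ C) rfl (sdiff_subset.trans hBA) (by
              intro u hu w hw huw
              rw [mem_sdiff] at hu ⊢
              refine ⟨hcl u hu.1 w hw huw, fun hwC => hu.2 ?_⟩
              exact hstep w hwC u hu.1 huw.symm)
          have hBe : C ∪ (B \ C) = B := union_sdiff_of_subset hCB
          have := join C (B \ C) blC blR disjoint_sdiff (by
            rw [hBe]
            have h7 : nb G B ⊆ Z ∪ nb G A := by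
              intro w hw
              rw [mem_nb] at hw
              obtain ⟨hwB, u, hu, huw⟩ := hw
              rw [mem_union]
              by_cases hwA : w ∈ A
              · left
                by_contra hwZ
                exact hwB (hcl u hu w (mem_sdiff.2 ⟨hwA, hwZ⟩) huw)
              · right
                exact mem_nb.2 ⟨hwA, u, (mem_sdiff.1 (hBA hu)).1, huw⟩
            have h8 := (card_le_card h7).trans (card_union_le _ _)
            omega)
          rwa [hBe] at this
      have hAZ := inner _ (A \ Z) rfl Subset.rfl (fun _ _ w hw _ => hw)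
      have hadd : ∀ F : Finset V, F ⊆ A ∩ Z → Bl X Y univ (3 * (k + 2) + 1) ((A \ Z) ∪ F) := by
        intro F
        induction F using Finset.induction_on with
        | empty => intro _; rwa [union_empty]
        | insert x F hxF ihF =>
          intro hF
          have hF' : F ⊆ A ∩ Z := (subset_insert _ _).trans hF
          have hx : x ∈ A ∩ Z := hF (mem_insert_self _ _)
          have e : (A \ Z) ∪ insert x F = ((A \ Z) ∪ F) ∪ {x} := by
            ext z; simp only [mem_union, mem_insert, mem_singleton]; tauto
          rw [e]
          refine join _ _ (ihF hF') (Bl.small (subset_univ _) (by simp)) ?_ ?_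
          · rw [disjoint_singleton_right, mem_union, mem_sdiff]
            rintro (h | h)
            · exact h.2 (mem_inter.1 hx).2
            · exact hxF h
          · rw [← e]
            have h7 : nb G ((A \ Z) ∪ insert x F) ⊆ Z ∪ nb G A := by
              intro w hw
              rw [mem_nb, mem_union, mem_sdiff] at hw
              obtain ⟨hwB, u, hu, huw⟩ := hw
              push Not at hwB
              rw [mem_union]
              by_cases hwA : w ∈ A
              · left
                by_contra hwZ
                exact hwZ (hwB.1 hwA)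
              · right
                refine mem_nb.2 ⟨hwA, u, ?_, huw⟩
                rw [mem_union, mem_sdiff] at hu
                rcases hu with hu | hu
                · exact hu.1
                · exact (mem_inter.1 (hF hu)).1
            have h8 := (card_le_card h7).trans (card_union_le _ _)
            omega
      have := hadd (A ∩ Z) Subset.rfl
      rwa [sdiff_union_inter] at this
  refine main _ univ rfl ?_
  have : nb G (univ : Finset V) = ∅ := by
    ext w
    rw [mem_nb]
    simp
  rw [this]
  simp

end general

end Pool.Agent.W956.PPM
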