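import Pool.Agent.W956.PPM.Defs
import Pool.Agent.W956.PPM.Tw

/-!
# Treewidth and hardness of pattern-restricted permutation pattern matching
-/

namespace Pool.Agent.W956.PPM

open Finset
open Pool.Agent.NPC Pool.Agent.H593R3.PPM H860R3.Lamp
open Pool.Agent.H660R2.NX (poly_of_polyTime polyTime_of_poly')

/-- The grid-width is bounded in terms of the treewidth. -/
theorem gw_le_of_tree {π : List ℕ} (h : IsPerm π) {k : ℕ}
    (D : TreeDecomposition (permGraph π) k) : gw π ≤ 3 * (k + 2) + 1 := by
  classical
  rw [gw_le_iff h (by omega)]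
  rcases Nat.eq_zero_or_pos π.length with h0 | h0
  · left; rw [h0]; rfl
  have hXr : (univ : Finset (Fin π.length)).image (fun i : Fin π.length => (i : ℕ)) =
      range π.length := by
    ext b
    rw [mem_image, mem_range]
    exact ⟨fun ⟨i, _, hi⟩ => hi ▸ i.2, fun hb => ⟨⟨b, hb⟩, mem_univ _, rfl⟩⟩
  have hYr : (univ : Finset (Fin π.length)).image (fun i : Fin π.length => yv π (i : ℕ)) =
      range π.length := by
    rw [← h.image]
    ext b
    rw [mem_image, mem_image]
    exact ⟨fun ⟨i, _, hi⟩ => ⟨i, mem_range.2 i.2, hi⟩,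
      fun ⟨i, hi, hb⟩ => ⟨⟨i, mem_range.1 hi⟩, mem_univ _, hb⟩⟩
  have hYi : Function.Injective (fun i : Fin π.length => yv π (i : ℕ)) := by
    intro i j hij
    exact Fin.ext (h.injOn (by simp) (by simp) hij)
  have key := bl_of_tree (G := permGraph π) (n := π.length) D (X := fun i : Fin π.length => (i : ℕ))
    (Y := fun i : Fin π.length => yv π (i : ℕ)) Fin.val_injective hXr (fun u v huv => by
      rw [permGraph, SimpleGraph.fromRel_adj]
      exact ⟨fun e => by rw [e] at huv; omega, Or.inl (Or.inl huv)⟩) hYi hYr (fun u v huv => by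
      rw [permGraph, SimpleGraph.fromRel_adj]
      rw [yv_eq u.2, yv_eq v.2] at huv
      exact ⟨fun e => by rw [e] at huv; omega, Or.inl (Or.inr huv)⟩)
  have hp : Bl id (yv π) (range π.length) (3 * (k + 2) + 1)
      ((range π.length).filter (fun w => (if hw : w < π.length then (⟨w, hw⟩ : Fin π.length)
        else ⟨0, h0⟩) ∈ (univ : Finset (Fin π.length)))) := by
    refine Bl.pull (X' := id) (Y' := yv π)
      (h := fun w => if hw : w < π.length then (⟨w, hw⟩ : Fin π.length) else ⟨0, h0⟩)
      (fun _ _ => mem_univ _) ?_ ?_ ?_ key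
    · intro a ha b hb hab
      have ha' : a < π.length := by simpa using ha
      have hb' : b < π.length := by simpa using hb
      simp only [ha', hb', dif_pos, Fin.mk.injEq] at hab
      exact hab
    · intro a ha b hb hab
      rw [mem_range] at ha hb
      simp only [ha, hb, dif_pos]
      exact hab
    · intro a ha b hb hab
      rw [mem_range] at ha hb
      simp only [ha, hb, dif_pos]
      exact hab
  have e : (range π.length).filter (fun w => (if hw : w < π.length then (⟨w, hw⟩ : Fin π.length)
        else ⟨0, h0⟩) ∈ (univ : Finset (Fin π.length))) = range π.length := by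
    rw [filter_eq_self]
    intro a _
    exact mem_univ _
  rwa [e] at hp

theorem unboundedTW_of_gw {C : Set (List ℕ)} (hC : PermClass C) (h : UnboundedGW C) :
    UnboundedTW C := by
  intro k
  obtain ⟨π, hπ, hg⟩ := h (3 * (k + 2) + 1)
  refine ⟨π, hπ, ⟨fun D => ?_⟩⟩
  have := gw_le_of_tree (hC.1 π hπ) D
  omega

theorem HardOnInstances.npHardP {C : Set (List ℕ)} (h : HardOnInstances C) :
    NPHardP (PatternPPM C) := by
  intro L hL
  obtain ⟨f, hf, hv, hL⟩ := h L hL
  refine ⟨fun x => bits (f x), hf, fun x => ?_⟩
  rw [bits_mem_lang, hL]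
  exact ⟨fun h => ⟨(hv x).1, (hv x).2, h⟩, fun h => h.2.2⟩

/-- a class of unbounded treewidth contains the permutation of length one -/
theorem single_mem {C : Set (List ℕ)} (hC : PermClass C) (hU : UnboundedTW C) : [0] ∈ C := by
  obtain ⟨π, hπC, hπ⟩ := hU 0
  have hpos : 0 < π.length := by
    by_contra h0
    have h1 : π = [] := List.length_eq_zero_iff.1 (by omega)
    subst h1
    refine hπ.elim ⟨Unit, ⊥, ?_, fun _ => ∅, fun v => v.elim0, fun v => v.elim0, fun v => v.elim0,
      fun _ => Set.finite_empty, fun _ => by simp⟩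
    exact ⟨⟨fun a b => by cases a; cases b; exact SimpleGraph.Reachable.refl _⟩,
      SimpleGraph.isAcyclic_bot⟩
  refine hC.2 π hπC [0] (List.Perm.refl _) ⟨fun _ => ⟨0, hpos⟩, ?_, ?_⟩
  · intro i j hij
    have hi := i.2
    have hj := j.2
    simp only [List.length_singleton] at hi hj
    have : (i : ℕ) < j := hij
    omega
  · intro i j
    have hi := i.2
    have hj := j.2
    simp only [List.length_singleton] at hi hj
    have : i = j := Fin.ext (by omega)
    subst this
    simp

/-- If `P = NP`, all pattern problems for classes of unbounded treewidth are `NP`-hard. -/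
theorem hard_of_eq (hPNP : ∀ L, InNP L → InP L) {C : Set (List ℕ)} (hC : PermClass C)
    (hU : UnboundedTW C) : HardOnInstances C := by
  have h0 : IsPerm [0] := List.Perm.refl _
  have hmem := single_mem hC hU
  intro L hL
  obtain ⟨V, hV, hVL⟩ := hPNP L hL
  refine ⟨fun x => if V x = [true] then (([0], [0]) : List ℕ × List ℕ)
    else (([0], []) : List ℕ × List ℕ), ?_, fun x => ?_, fun x => ?_⟩
  · refine polyTime_of_poly' ?_
    have e : (fun x => bits (if V x = [true] then (([0], [0]) : List ℕ × List ℕ)
        else (([0], []) : List ℕ × List ℕ))) =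
        fun x => if V x = [true] then bits (([0], [0]) : List ℕ × List ℕ)
          else bits (([0], []) : List ℕ × List ℕ) := by
      funext x
      split_ifs <;> rfl
    have h1 := poly_of_polyTime hV
    change NPC.Poly (fun x => bits (if V x = [true] then (([0], [0]) : List ℕ × List ℕ)
        else (([0], []) : List ℕ × List ℕ)))
    rw [e]
    fun_prop
  · dsimp only
    split_ifs
    · exact ⟨hmem, h0⟩
    · exact ⟨hmem, List.Perm.refl _⟩
  · rw [hVL x]
    by_cases h : V x = [true]
    · simp only [h, if_true, true_iff]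
      exact Contains.refl _
    · simp only [h, if_false, false_iff]
      intro hc
      have := hc.length_le
      simp at this

end Pool.Agent.W956.PPM
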